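import Mathlib

set_option autoImplicit false
open Set Filter Topology Real Metric
open Complex (I)
open scoped ContDiff

namespace Pool.Agent.H.MP_f65947_an

lemma disc {ψ : ℂ → ℂ} (d : DifferentiableOn ℂ ψ (ball 0 1)) (h0 : ψ 0 = 0) (h : ∀ δ > (0 : ℝ), ∃ b ∈ Ioo 0 δ,
    ∃ g : ℂ → ℂ, DifferentiableOn ℂ g (ball 0 1) ∧ ∀ t ∈ ball (0 : ℂ) 1, ‖g t ^ 2 - b ^ 2 - ψ t / 2‖ ≤ b ^ 3) :
    ∀ t ∈ ball (0 : ℂ) 1, ψ t = 0 := by
  have an := d.analyticOnNhd isOpen_ball
  refine an.eqOn_zero_of_preconnected_of_eventuallyEq_zero (convex_ball 0 1).isPreconnected (mem_ball_self one_pos)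
    (by_contra fun c => ?_)
  obtain ⟨k, H, aH, H0, e⟩ := (an 0 (mem_ball_self one_pos)).exists_eventuallyEq_pow_smul_nonzero_iff.2 c
  simp only [sub_zero, smul_eq_mul] at e
  obtain _ | k := k
  · exact H0 (by simpa [h0] using e.self_of_nhds.symm)
  have cH := aH.continuousAt
  have cH' := aH.deriv.continuousAt
  have : ∀ᶠ t in 𝓝 (0 : ℂ), (‖ψ t‖ ≤ ‖deriv ψ t‖ ∧ (t ≠ 0 → ψ t ≠ 0)) ∧ ‖t‖ < 1 / 2 := by
    filter_upwards [e.eventually_nhds, aH.eventually_analyticAt, cH.eventually_ne H0, ContinuousAt.eventually_lt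
      (f := fun t => ‖t * H t‖) (g := fun t => ‖(k + 1) * H t + t * deriv H t‖) (by fun_prop) (by fun_prop)
      (by simp [H0, Nat.cast_add_one_ne_zero]), ball_mem_nhds 0 one_half_pos] with t a b c d l
    refine ⟨⟨?_, fun k => by simp [a.self_of_nhds, k, c]⟩, mem_ball_zero_iff.1 l⟩
    rw [EventuallyEq.deriv_eq a, ((hasDerivAt_pow (k + 1) t).fun_mul b.differentiableAt.hasDerivAt).deriv, a.self_of_nhds]
    calc _ = ‖t ^ k‖ * ‖t * H t‖ := by rw [← norm_mul]; congr 1; ring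
      _ ≤ ‖t ^ k‖ * ‖(k + 1) * H t + t * deriv H t‖ := by gcongr
      _ = _ := by rw [← norm_mul]; congr 1; simp; ring
  obtain ⟨r, r0, hr⟩ := nhds_basis_closedBall.eventually_iff.1 this
  have sb : closedBall (0 : ℂ) r ⊆ ball 0 1 := fun t ht => mem_ball_zero_iff.2 (by linarith [(hr ht).2])
  obtain ⟨m, m0, hm⟩ := (isCompact_sphere (0 : ℂ) r).exists_forall_le' (f := fun t => ‖ψ t‖) (a := 0)
    (d.continuousOn.mono (sphere_subset_closedBall.trans sb)).norm fun t ht =>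
      norm_pos_iff.2 ((hr (sphere_subset_closedBall ht)).1.2 (ne_of_mem_sphere ht r0.ne'))
  obtain ⟨b, ⟨b0, b1⟩, g, dg, hg⟩ := h (min (1 / 5) m) (by positivity)
  rw [lt_min_iff] at b1
  obtain ⟨t, ht, g0⟩ : ∃ t ∈ closedBall (0 : ℂ) r, g t = 0 := by
    by_contra! n
    have p : 0 < m / 2 - b ^ 2 - b ^ 3 := by nlinarith
    have := Complex.norm_le_of_forall_mem_frontier_norm_le (U := ball 0 r) (f := fun t => (g t ^ 2)⁻¹) isBounded_ball
      (DifferentiableOn.diffContOnCl (by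
        rw [closure_ball _ r0.ne']; exact ((dg.mono sb).pow 2).inv fun t ht => pow_ne_zero _ (n t ht)))
      (C := (m / 2 - b ^ 2 - b ^ 3)⁻¹) (fun t ht => by
        rw [frontier_ball _ r0.ne'] at ht
        have a := hg t (sb (sphere_subset_closedBall ht))
        have := norm_add_le (g t ^ 2 - b ^ 2) (-(g t ^ 2 - b ^ 2 - ψ t / 2))
        have := norm_sub_le (g t ^ 2) (b ^ 2)
        have := hm t ht
        rw [norm_inv]
        refine inv_anti₀ p ?_
        simp only [norm_neg, add_neg_cancel_comm_assoc, ← sub_eq_add_neg, sub_sub_cancel, norm_div, Complex.norm_two,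
          norm_pow (b : ℂ), Complex.norm_real, norm_eq_abs, sq_abs] at *
        linarith) (subset_closure (mem_ball_self r0))
    have a := hg 0 (mem_ball_self one_pos)
    have c := norm_add_le (g 0 ^ 2 - b ^ 2) (b ^ 2)
    rw [norm_inv, inv_le_inv₀ (norm_pos_iff.2 (pow_ne_zero _ (n 0 (mem_closedBall_self r0.le)))) p] at this
    simp only [h0, zero_div, sub_zero, sub_add_cancel, norm_pow (b : ℂ), Complex.norm_real, norm_eq_abs, sq_abs] at a c
    nlinarith
  have s2 : closedBall t (1 / 4) ⊆ ball 0 1 := closedBall_subset_ball' (by rw [dist_zero_right]; linarith [(hr ht).2])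
  have := Complex.norm_deriv_le_of_forall_mem_sphere_norm_le (c := t) (R := 1 / 4) (f := fun t => g t ^ 2 - b ^ 2 - ψ t / 2)
    (by norm_num) (DifferentiableOn.diffContOnCl (by
      rw [closure_ball _ (by norm_num)]; exact (((dg.pow 2).sub_const _).sub (d.div_const 2)).mono s2))
    fun z hz => hg z (s2 (sphere_subset_closedBall hz))
  have n := isOpen_ball.mem_nhds (sb ht)
  rw [(((((dg.differentiableAt n).hasDerivAt.fun_pow 2).sub_const _).fun_sub
    ((d.differentiableAt n).hasDerivAt.div_const 2))).deriv] at this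
  have a := hg t (sb ht)
  have c := norm_add_le (g t ^ 2 - b ^ 2 - ψ t / 2) (ψ t / 2)
  simp only [g0, sub_add_cancel] at a c this
  norm_num at a c this
  nlinarith [(hr ht).1.1, mul_pos b0 b0]

variable {V : Type} [NormedAddCommGroup V] [NormedSpace ℝ V]

lemma line {F : V → ℝ} {p v : V} (hF : ContDiffAt ℝ 2 F p) {c1 : ℝ → ℝ} {c2 : ℝ}
    (h1 : ∀ t, HasDerivAt (fun t : ℝ => F (p + t • v)) (c1 t) t) (h2 : HasDerivAt c1 c2 0) :
    iteratedFDeriv ℝ 2 F p ![v, v] = c2 := by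
  have l (t : ℝ) : HasDerivAt (fun t : ℝ => p + t • v) v t := by
    simpa using ((hasDerivAt_id t).smul_const v).const_add p
  have tp : Tendsto (fun t : ℝ => p + t • v) (𝓝 0) (𝓝 p) := Continuous.tendsto' (by fun_prop) _ _ (by simp)
  have e : (fun t : ℝ => fderiv ℝ F (p + t • v) v) =ᶠ[𝓝 0] c1 := by
    filter_upwards [tp.eventually (hF.eventually (by simp))] with t b
    exact ((b.differentiableAt (by simp)).hasFDerivAt.comp_hasDerivAt t (l t)).unique (h1 t)
  have hd : HasFDerivAt (fderiv ℝ F) (fderiv ℝ (fderiv ℝ F) p) (p + (0 : ℝ) • v) := by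
    simpa using ((hF.fderiv_right (m := 1) (by norm_num)).differentiableAt (by norm_num)).hasFDerivAt
  have := ((hd.comp_hasDerivAt 0 (l 0)).clm_apply (hasDerivAt_const 0 v)).unique (h2.congr_of_eventuallyEq e)
  simpa [iteratedFDeriv_two_apply] using this

lemma small {u : V → ℝ} (hu : ContDiff ℝ ∞ u) (hc : HasCompactSupport u) (n : ℕ) :
    ∃ c > (0 : ℝ), ∀ k ≤ n + 2, ∀ x, ‖iteratedFDeriv ℝ k (c • u) x‖ ≤ (1 / 2) ^ n := by
  choose C hC using fun k : ℕ => (hu.continuous_iteratedFDeriv (m := k) (mod_cast le_top)).bounded_above_of_compact_support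
    (hc.iteratedFDeriv k)
  have p : 0 < ∑ k ∈ Finset.range (n + 3), |C k| + 1 := by positivity
  refine ⟨(1 / 2) ^ n / (∑ k ∈ Finset.range (n + 3), |C k| + 1), by positivity, fun k hk x => ?_⟩
  rw [iteratedFDeriv_const_smul_apply (hu.contDiffAt.of_le (mod_cast le_top)), norm_smul,
    norm_of_nonneg (by positivity), div_mul_eq_mul_div, div_le_iff₀ p]
  have := Finset.single_le_sum (f := fun k => |C k|) (fun _ _ => abs_nonneg _)
    (Finset.mem_range.2 (Nat.lt_succ_of_le hk))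
  gcongr
  linarith [hC k x, le_abs_self (C k)]

noncomputable def k (s : ℝ) : ℝ := smoothTransition (s - 1) / s

noncomputable def κ (t : ℝ) : ℝ := ∫ s in (1 : ℝ)..t, k s

lemma k0 {s : ℝ} (h : s ≤ 1) : k s = 0 := by simp [k, smoothTransition.zero_of_nonpos (sub_nonpos.2 h)]

lemma kc : ContDiff ℝ ∞ k := contDiff_iff_contDiffAt.2 fun s => by
  by_cases h : s = 0
  · exact contDiffAt_const.congr_of_eventuallyEq ((eventually_lt_nhds (h ▸ one_pos)).mono fun _ h => k0 h.le)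
  · unfold k; fun_prop (disch := assumption)

lemma dκ (t : ℝ) : HasDerivAt κ (k t) t := (kc.continuous.integral_hasStrictDerivAt 1 t).hasDerivAt

lemma κc : ContDiff ℝ ∞ κ := contDiff_infty_iff_deriv.2 ⟨fun t => (dκ t).differentiableAt, by
  rw [show deriv κ = k from funext fun t => (dκ t).deriv]; exact kc⟩

lemma κp {t : ℝ} (h : 1 < t) : 0 < κ t := intervalIntegral.intervalIntegral_pos_of_pos_on
  (kc.continuous.intervalIntegrable _ _) (fun s hs => div_pos (smoothTransition.pos_of_pos (sub_pos.2 hs.1))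
    (one_pos.trans hs.1)) h

lemma κ0 {t : ℝ} (h : t ≤ 1) : κ t = 0 :=
  (intervalIntegral.integral_congr (g := fun _ => 0) fun s hs => k0 (by rw [uIcc_of_ge h] at hs; exact hs.2)).trans
    (by simp)

lemma kd (s : ℝ) : s * deriv k s + k s = deriv smoothTransition (s - 1) := by
  have e : (fun s => s * k s) = fun s => smoothTransition (s - 1) := funext fun s => by
    by_cases h : s = 0
    · simp [h, smoothTransition.zero_of_nonpos]
    · rw [k, mul_div_cancel₀ _ h]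
  have := ((hasDerivAt_id s).fun_mul (kc.differentiable (by simp) s).hasDerivAt).deriv
  simp only [id] at this
  rw [e, deriv_comp_sub_const] at this
  linarith

lemma lev {Q : ℂ × ℂ → ℂ} (hQ : ContDiff ℂ ∞ Q) (p v : ℂ × ℂ) :
    iteratedFDeriv ℝ 2 (fun p => κ (‖Q p‖ ^ 2)) p ![v, v] + iteratedFDeriv ℝ 2 (fun p => κ (‖Q p‖ ^ 2)) p ![I • v, I • v] =
      4 * ‖fderiv ℂ Q p v‖ ^ 2 * deriv smoothTransition (‖Q p‖ ^ 2 - 1) := by
  set q := fun l : ℂ => Q (p + l • v) with hq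
  have cq : ContDiff ℂ ∞ q := hQ.comp (by fun_prop)
  have d1 (l : ℂ) := (cq.differentiable (by simp) l).hasDerivAt
  have d2 (l : ℂ) := ((contDiff_infty_iff_deriv.1 cq).2.differentiable (by simp) l).hasDerivAt
  have key (c : ℂ) : iteratedFDeriv ℝ 2 (fun p => κ (‖Q p‖ ^ 2)) p ![c • v, c • v] =
      deriv k (‖Q p‖ ^ 2) * (2 * ((Q p).re * (deriv q 0 * c).re + (Q p).im * (deriv q 0 * c).im)) ^ 2 +
        k (‖Q p‖ ^ 2) * (2 * ((deriv q 0 * c).re ^ 2 + (Q p).re * (deriv (deriv q) 0 * c * c).re +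
          ((deriv q 0 * c).im ^ 2 + (Q p).im * (deriv (deriv q) 0 * c * c).im))) := by
    have l (t : ℝ) : HasDerivAt (fun z : ℂ => z * c) c t := hasDerivAt_mul_const c
    have a (t : ℝ) := ((d1 (t * c)).comp (t : ℂ) (l t)).comp_ofReal
    have b (t : ℝ) := (((d2 (t * c)).comp (t : ℂ) (l t)).mul_const c).comp_ofReal
    have re {f : ℝ → ℂ} {f' : ℂ} {t : ℝ} (h : HasDerivAt f f' t) : HasDerivAt (fun t => (f t).re) f'.re t :=
      Complex.reCLM.hasFDerivAt.comp_hasDerivAt t h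
    have im {f : ℝ → ℂ} {f' : ℂ} {t : ℝ} (h : HasDerivAt f f' t) : HasDerivAt (fun t => (f t).im) f'.im t :=
      Complex.imCLM.hasFDerivAt.comp_hasDerivAt t h
    have N (t : ℝ) : HasDerivAt (fun t : ℝ => ‖q (t * c)‖ ^ 2)
        (2 * ((q (t * c)).re * (deriv q (t * c) * c).re + (q (t * c)).im * (deriv q (t * c) * c).im)) t := by
      simp only [Complex.sq_norm, Complex.normSq_apply]
      exact (((re (a t)).mul (re (a t))).add ((im (a t)).mul (im (a t)))).congr_deriv (by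
        simp only [Function.comp]; ring)
    refine line ((κc.comp ((hQ.restrict_scalars ℝ).norm_sq ℂ)).contDiffAt.of_le (WithTop.coe_le_coe.2 le_top))
      (fun t => ((dκ _).comp t (N t)).congr_of_eventuallyEq (.of_forall fun t => by simp [hq, mul_smul]))
      ((((kc.differentiable (by simp) _).hasDerivAt.comp 0 (N 0)).mul
        ((((re (a 0)).mul (re (b 0))).add ((im (a 0)).mul (im (b 0)))).const_mul 2)).congr_deriv ?_)
    simp only [Function.comp, hq, Complex.ofReal_zero, zero_mul, zero_smul, add_zero, Pi.add_apply, Pi.mul_apply]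
    ring
  have e : deriv q 0 = fderiv ℂ Q p v := by
    have l : HasDerivAt (fun l : ℂ => p + l • v) v 0 := by simpa using ((hasDerivAt_id (0 : ℂ)).smul_const v).const_add p
    exact ((hQ.differentiable (by simp) _).hasFDerivAt.comp_hasDerivAt 0 l).deriv.trans (by simp)
  have := key 1
  rw [one_smul] at this
  rw [this, key I, ← kd, e]
  simp only [Complex.sq_norm, Complex.normSq_apply, Complex.mul_re, Complex.mul_im, Complex.I_re, Complex.I_im, mul_one]
  ring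

noncomputable def b (n : ℕ) : ℝ := (n + 8 : ℝ)⁻¹

noncomputable def Q : ℕ → ℂ × ℂ → ℂ
  | 0, _ => 0
  | n + 1, p => (Q n p ^ 2 - 2 * b n * Q n p - (if n % 2 = 0 then p.1 else p.2) / 2) / b n ^ 3

lemma Qc (n : ℕ) : ContDiff ℂ ∞ (Q n) := by
  induction n with
  | zero => exact contDiff_const
  | succ n ih =>
    show ContDiff ℂ ∞ fun p => Q (n + 1) p
    simp only [Q]
    split_ifs <;> fun_prop

lemma Q0 (n : ℕ) : Q n 0 = 0 := by induction n <;> simp [Q, *]

lemma bb (n : ℕ) : 0 < b n ∧ b n ≤ 1 / 8 :=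
  ⟨by unfold b; positivity, by rw [b, one_div]; exact inv_anti₀ (by norm_num) (by simp)⟩

lemma Qe (n : ℕ) (p : ℂ × ℂ) : (Q n p - b n) ^ 2 - b n ^ 2 - (if n % 2 = 0 then p.1 else p.2) / 2 = b n ^ 3 * Q (n + 1) p := by
  rw [Q, mul_div_cancel₀ _ (by simp [(bb n).1.ne'])]; ring

lemma nest {p : ℂ × ℂ} (hp : ‖p‖ < 1) {m n : ℕ} (h : m < n) (k : ‖Q n p‖ ≤ 2) : ‖Q m p‖ ≤ 1 := by
  have s (n : ℕ) (k : ‖Q (n + 1) p‖ ≤ 2) : ‖Q n p‖ ≤ 1 := by
    by_contra! c
    obtain ⟨b0, b1⟩ := bb n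
    have a : ‖if n % 2 = 0 then p.1 else p.2‖ ≤ 1 := by
      split_ifs
      exacts [(norm_fst_le p).trans hp.le, (norm_snd_le p).trans hp.le]
    have e : Q n p * (Q n p - 2 * b n) = b n ^ 3 * Q (n + 1) p + (if n % 2 = 0 then p.1 else p.2) / 2 := by
      rw [← Qe]; ring
    have := (congrArg norm e).trans_le (norm_add_le _ _)
    have l := norm_sub_norm_le (Q n p) (2 * b n)
    simp only [norm_mul, norm_pow, norm_div, Complex.norm_two, Complex.norm_real, norm_of_nonneg b0.le] at this l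
    have : b n ^ 3 * ‖Q (n + 1) p‖ ≤ (1 / 8) ^ 3 * 2 := by gcongr
    nlinarith
  induction n, h using Nat.le_induction with
  | base => exact s _ k
  | succ n _ ih => exact ih ((s n k).trans one_le_two)

lemma nodisc {φ : ℂ → ℂ × ℂ} (d : DifferentiableOn ℂ φ (ball 0 1)) (h0 : φ 0 = 0)
    (h : ∀ t ∈ ball (0 : ℂ) 1, ∀ n, ‖Q n (φ t)‖ ≤ 1) : ∀ t ∈ ball (0 : ℂ) 1, φ t = 0 := by
  have key (i : ℕ) (δ : ℝ) (d0 : 0 < δ) : ∃ c ∈ Ioo 0 δ, ∃ g : ℂ → ℂ, DifferentiableOn ℂ g (ball 0 1) ∧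
      ∀ t ∈ ball (0 : ℂ) 1, ‖g t ^ 2 - c ^ 2 - (if i % 2 = 0 then (φ t).1 else (φ t).2) / 2‖ ≤ c ^ 3 := by
    obtain ⟨m, hm⟩ := exists_nat_gt δ⁻¹
    refine ⟨b (i + 2 * m), ⟨(bb _).1, inv_lt_of_inv_lt₀ d0 (hm.trans ?_)⟩, fun t => Q (i + 2 * m) (φ t) - b (i + 2 * m),
      (((Qc _).differentiable (by simp)).comp_differentiableOn d).sub_const _, fun t ht => ?_⟩
    · push_cast; linarith [m.cast_nonneg (α := ℝ), i.cast_nonneg (α := ℝ)]
    · rw [← Nat.add_mul_mod_self_left i 2 m, Qe, norm_mul, norm_pow, Complex.norm_real, norm_of_nonneg (bb _).1.le]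
      exact mul_le_of_le_one_right (pow_nonneg (bb _).1.le _) (h t ht _)
  exact fun t ht => Prod.ext (disc d.fst (by simp [h0]) (key 0) t ht) (disc d.snd (by simp [h0]) (key 1) t ht)

lemma main : ∃ u : ℂ × ℂ → ℝ, ContDiff ℝ ∞ u ∧ u 0 = 0 ∧ ∀ p : ℂ × ℂ, ‖p‖ < 1 → 0 ≤ u p ∧ (u p = 0 → ∀ n, ‖Q n p‖ ≤ 1) ∧
    (∀ v, 0 ≤ iteratedFDeriv ℝ 2 u p ![v, v] + iteratedFDeriv ℝ 2 u p ![I • v, I • v]) ∧
    ∃ v ≠ 0, iteratedFDeriv ℝ 2 u p ![v, v] + iteratedFDeriv ℝ 2 u p ![I • v, I • v] = 0 := by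
  let θ : ContDiffBump (0 : ℂ × ℂ) := ⟨1, 2, one_pos, one_lt_two⟩
  have c1 (n : ℕ) : ContDiff ℝ ∞ fun p => κ (‖Q n p‖ ^ 2) := κc.comp (((Qc n).restrict_scalars ℝ).norm_sq ℂ)
  have cF (n : ℕ) : ContDiff ℝ ∞ fun p => θ p * κ (‖Q n p‖ ^ 2) := θ.contDiff.mul (c1 n)
  choose c c0 hc using fun n => small (cF n) θ.hasCompactSupport.mul_right n
  set F := fun n => c n • fun p => θ p * κ (‖Q n p‖ ^ 2) with hF
  have cc (n : ℕ) : ContDiff ℝ ∞ (F n) := (cF n).const_smul (c n)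
  have κn (t : ℝ) : 0 ≤ κ t := (le_or_gt t 1).elim (fun h => (κ0 h).ge) fun h => (κp h).le
  have nn (n : ℕ) (p : ℂ × ℂ) : 0 ≤ F n p := mul_nonneg (c0 n).le (mul_nonneg θ.nonneg (κn _))
  refine ⟨fun p => ∑' n, F n p, contDiff_tsum_of_eventually (v := fun _ n => (1 / 2) ^ n) cc
    (fun _ _ => summable_geometric_two) fun k _ => ?_, by simp [hF, Q0, κ0], fun p hp => ⟨tsum_nonneg fun n => nn n p,
      fun e n => ?_, ?_⟩⟩
  · rw [Nat.cofinite_eq_atTop]
    filter_upwards [eventually_ge_atTop k] with n hn using hc n k (by omega)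
  · have := (summable_geometric_two.of_norm_bounded fun n => (norm_iteratedFDeriv_zero (𝕜 := ℝ)).symm.trans_le
      (hc n 0 (by omega) p)).le_tsum n fun m _ => nn m p
    by_contra! k
    refine (this.trans_eq e).not_gt (mul_pos (c0 n) ?_)
    simp only [θ.one_of_mem_closedBall (mem_closedBall_zero_iff.2 hp.le), one_mul]
    exact κp (by nlinarith)
  have e (v : ℂ × ℂ) : HasSum (fun n => c n * (4 * ‖fderiv ℂ (Q n) p v‖ ^ 2 * deriv smoothTransition (‖Q n p‖ ^ 2 - 1)))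
      (iteratedFDeriv ℝ 2 (fun p => ∑' n, F n p) p ![v, v] +
        iteratedFDeriv ℝ 2 (fun p => ∑' n, F n p) p ![I • v, I • v]) := by
    rw [iteratedFDeriv_tsum_apply (N := 2) (v := fun _ n => (1 / 2) ^ n) (fun n => (cc n).of_le (mod_cast le_top))
      (fun _ _ => summable_geometric_two) (fun k n x hk => hc n k (le_add_left (mod_cast hk)) x) le_rfl]
    have s := (summable_geometric_two.of_norm_bounded fun n => hc n 2 (by omega) p).hasSum
    refine (((ContinuousMultilinearMap.apply ℝ _ _ ![v, v]).hasSum s).add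
      ((ContinuousMultilinearMap.apply ℝ _ _ ![I • v, I • v]).hasSum s)).congr_fun fun n => ?_
    have : (fun p => θ p * κ (‖Q n p‖ ^ 2)) =ᶠ[𝓝 p] fun p => κ (‖Q n p‖ ^ 2) :=
      (θ.eventuallyEq_one_of_mem_ball (mem_ball_zero_iff.2 hp)).mono fun q hq => by simp [hq]
    simp only [ContinuousMultilinearMap.apply_apply]
    rw [iteratedFDeriv_const_smul_apply ((cF n).contDiffAt.of_le (WithTop.coe_le_coe.2 le_top)),
      (this.iteratedFDeriv ℝ 2).self_of_nhds, ← lev (Qc n)]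
    simp [mul_add]
  refine ⟨fun v => (e v).nonneg fun n => mul_nonneg (c0 n).le (mul_nonneg (by positivity)
    smoothTransition.monotone.deriv_nonneg), ?_⟩
  have act (n : ℕ) (h : deriv smoothTransition (‖Q n p‖ ^ 2 - 1) ≠ 0) : 1 < ‖Q n p‖ ∧ ‖Q n p‖ ≤ 2 := by
    refine ⟨not_le.1 fun k => h (IsLocalMin.deriv_eq_zero (.of_forall fun y => ?_)),
      not_lt.1 fun k => h (IsLocalMax.deriv_eq_zero (.of_forall fun y => ?_))⟩
    · rw [smoothTransition.zero_of_nonpos (sub_nonpos.2 (pow_le_one₀ (norm_nonneg _) k))]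
      exact smoothTransition.nonneg y
    · rw [smoothTransition.one_of_one_le (show 1 ≤ ‖Q n p‖ ^ 2 - 1 by nlinarith)]
      exact smoothTransition.le_one y
  obtain ⟨n, hn⟩ : ∃ n, ∀ m ≠ n, deriv smoothTransition (‖Q m p‖ ^ 2 - 1) = 0 := by
    by_contra! h
    obtain ⟨n, -, a⟩ := h 0
    obtain ⟨m, k, b⟩ := h n
    rcases k.lt_or_gt with k | k
    · exact (act m b).1.not_ge (nest hp k (act n a).2)
    · exact (act n a).1.not_ge (nest hp k (act m b).2)
  obtain ⟨v, v0, hv⟩ : ∃ v ≠ 0, fderiv ℂ (Q n) p v = 0 := by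
    generalize fderiv ℂ (Q n) p = L
    by_cases h : L (1, 0) = 0
    · exact ⟨_, by simp, h⟩
    · refine ⟨L (0, 1) • (1, 0) - L (1, 0) • (0, 1), fun k => h (by simpa using congrArg Prod.snd k), ?_⟩
      rw [map_sub, map_smul, map_smul, smul_eq_mul, smul_eq_mul, mul_comm, sub_self]
  refine ⟨v, v0, (e v).unique (by
    convert hasSum_zero with m
    by_cases h : m = n
    · simp [h, hv]
    · simp [hn m h])⟩

end Pool.Agent.H.MP_f65947_an
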